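import Pool.Agent.W845.GL.Stm

set_option autoImplicit false

namespace Pool.Agent.W636.GL

open Pool.Agent.W845.GL Finset

theorem sg_sq (r : Bool) : sg r * sg r = 1 := by
  unfold sg; split_ifs <;> norm_num

theorem sg_not (r : Bool) : sg (!r) = - sg r := by
  cases r <;> simp [sg]

theorem orth (i : ℕ) (j l : Fin i) :
    ∑ x : Fin i → Bool, sg (x j) * sg (x l) = if j = l then (2 : ℝ) ^ i else 0 := by
  split_ifs with h
  · subst h
    simp only [sg_sq]
    simp
  · have hinv : Function.Involutive (fun x : Fin i → Bool => Function.update x j (!x j)) := by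
      intro x
      funext m
      by_cases hm : m = j
      · subst hm; simp
      · simp [Function.update_of_ne hm]
    have h1 := Fintype.sum_equiv hinv.toPerm
      (fun x : Fin i → Bool => sg ((Function.update x j (!x j)) j) * sg ((Function.update x j (!x j)) l))
      (fun x : Fin i → Bool => sg (x j) * sg (x l)) (fun x => rfl)
    have h2 : ∀ x : Fin i → Bool, sg ((Function.update x j (!x j)) j) *
        sg ((Function.update x j (!x j)) l) = - (sg (x j) * sg (x l)) := by
      intro x
      rw [Function.update_self, Function.update_of_ne (Ne.symm h), sg_not]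
      ring
    simp only [h2] at h1
    rw [sum_neg_distrib] at h1
    linarith

theorem t_mu : S_MU := by
  intro i N hN
  set c : Fin i → ℝ := fun j => if (j : ℕ) < N then aa j else 0 with hc
  have hT : ∀ x y : Fin i → Bool, TT i N x y ^ 2 =
      ∑ j : Fin i, ∑ l : Fin i, c j * c l * ((sg (x j) * sg (x l)) * (sg (y j) * sg (y l))) := by
    intro x y
    have : TT i N x y = ∑ j : Fin i, c j * (sg (x j) * sg (y j)) := by
      unfold TT
      refine sum_congr rfl fun j _ => ?_
      simp only [hc]
      split_ifs <;> ring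
    rw [this, sq, sum_mul_sum]
    refine sum_congr rfl fun j _ => sum_congr rfl fun l _ => ?_
    ring
  have h1 : ∑ x : Fin i → Bool, ∑ y : Fin i → Bool, TT i N x y ^ 2 =
      ∑ j : Fin i, ∑ l : Fin i, c j * c l * ((∑ x : Fin i → Bool, sg (x j) * sg (x l)) *
        (∑ y : Fin i → Bool, sg (y j) * sg (y l))) := by
    simp only [hT]
    have e1 : ∀ x : Fin i → Bool, ∑ y : Fin i → Bool, ∑ j : Fin i, ∑ l : Fin i,
        c j * c l * ((sg (x j) * sg (x l)) * (sg (y j) * sg (y l))) =
        ∑ j : Fin i, ∑ l : Fin i, c j * c l * ((sg (x j) * sg (x l)) *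
          ∑ y : Fin i → Bool, (sg (y j) * sg (y l))) := by
      intro x
      rw [sum_comm]
      refine sum_congr rfl fun j _ => ?_
      rw [sum_comm]
      refine sum_congr rfl fun l _ => ?_
      rw [mul_sum, mul_sum]
    simp only [e1]
    rw [sum_comm]
    refine sum_congr rfl fun j _ => ?_
    rw [sum_comm]
    refine sum_congr rfl fun l _ => ?_
    rw [sum_mul, mul_sum]
  rw [h1]
  simp only [orth]
  have h2 : ∀ j : Fin i, ∑ l : Fin i, c j * c l * ((if j = l then (2 : ℝ) ^ i else 0) *
      (if j = l then (2 : ℝ) ^ i else 0)) = (4 : ℝ) ^ i * c j ^ 2 := by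
    intro j
    rw [sum_eq_single j]
    · rw [if_pos rfl, show (4 : ℝ) = 2 * 2 by norm_num, mul_pow]; ring
    · intro l _ hl
      rw [if_neg (Ne.symm hl)]; ring
    · intro h; exact absurd (mem_univ _) h
  simp only [h2]
  rw [← mul_sum, mul_div_cancel_left₀ _ (by positivity)]
  have h3 : ∀ j : Fin i, c j ^ 2 = (fun m : ℕ => if m < N then aa m ^ 2 else 0) j := by
    intro j
    simp only [hc]
    split_ifs <;> simp
  simp only [h3]
  rw [Fin.sum_univ_eq_sum_range (fun m : ℕ => if m < N then aa m ^ 2 else 0) i, VV,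
    ← sum_filter]
  refine sum_congr ?_ fun _ _ => rfl
  ext m
  simp only [mem_filter, mem_range]
  omega

end Pool.Agent.W636.GL
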